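import Mathlib
import Pool.Agent.X112.DE.Main

set_option autoImplicit false

/-!
# MP_8b22d5_an, Q1 (partial): `κ* ≤ arsinh(√2 - 1) + √(4 - 2√2) + π/2 = 3.0563... < π`

Every admissible `κ` satisfies `κ ≤ arsinh(√2 - 1) + √(4 - 2√2) + π/2`, and the failure beyond that
value is already witnessed with the constant coefficient `p ≡ -1`.
-/

noncomputable section

namespace Pool.Agent.Results.MP_8b22d5_an.DelayUpperBound

open MeasureTheory Filter Topology Set

/-- `τ_m`, the essential supremum of `τ` over `[s, ∞)`. -/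
def tauM (s : ℝ) (τ : ℝ → ℝ) : ℝ := essSup τ (volume.restrict (Ici s))

/-- `x` is a solution of (E): on `[s - τ_m, ∞)` the function `x` is a primitive of `v` and `v` is
an absolutely continuous primitive of `w`, and `w(t) + p(t) x(t - τ(t)) = 0` for a.e. `t ≥ s`. -/
def IsSolution (s : ℝ) (p τ x : ℝ → ℝ) : Prop :=
  ∃ v w : ℝ → ℝ,
    (∀ a b : ℝ, s - tauM s τ ≤ a → a ≤ b →
      IntervalIntegrable v volume a b ∧ IntervalIntegrable w volume a b ∧
      x b = x a + ∫ r in a..b, v r ∧ v b = v a + ∫ r in a..b, w r) ∧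
    ∀ᵐ t : ℝ, s ≤ t → w t + p t * x (t - τ t) = 0

/-- arbitrarily large zeros -/
def Oscillatory (x : ℝ → ℝ) : Prop := ∀ R : ℝ, ∃ t : ℝ, R ≤ t ∧ x t = 0

/-- `κ` is admissible. -/
def Admissible (κ : ℝ) : Prop :=
  0 < κ ∧ ∀ (s : ℝ) (p τ : ℝ → ℝ), Measurable p → Measurable τ →
    (∀ t, -1 ≤ p t ∧ p t ≤ 0) → (∀ t, 0 ≤ τ t) → (∃ B : ℝ, ∀ᵐ t : ℝ, τ t ≤ B) →
    tauM s τ < κ →
    ∀ x : ℝ → ℝ, IsSolution s p τ x → Oscillatory x → Tendsto x atTop (𝓝 0)

/-- the new upper bound `arsinh(√2 - 1) + √(4 - 2√2) + π/2` -/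
def bound : ℝ := Real.arsinh (√2 - 1) + √(4 - 2 * √2) + Real.pi / 2

open X112.DE in
theorem witness : ∃ τ x : ℝ → ℝ, Measurable τ ∧ (∀ t, 0 ≤ τ t ∧ τ t ≤ bound) ∧
    IsSolution 0 (fun _ => -1) τ x ∧ Oscillatory x ∧ ¬ Tendsto x atTop (𝓝 0) := by
  have hbT : bound = T := rfl
  have hpi := Real.pi_pos
  have htau0 : ∀ t, 0 ≤ tau t := by
    intro t
    have := ps_nonneg t
    unfold tau
    split_ifs
    · exact le_rfl
    · positivity
    · exact T_pos.le
  have htauT : ∀ t, tau t ≤ T := by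
    intro t
    unfold tau
    split_ifs with h1 h2
    · exact T_pos.le
    · unfold T; linarith
    · exact le_rfl
  refine ⟨tau, x, tau_meas, fun t => ⟨htau0 t, hbT ▸ htauT t⟩, ⟨v, f, ?_, ?_⟩, ?_, ?_⟩
  · intro a b _ _
    refine ⟨v_int a b, f_int a b, ?_, ?_⟩
    · unfold x
      rw [intervalIntegral.integral_add_adjacent_intervals (v_int 0 a) (v_int a b)]
    · unfold v
      rw [add_assoc, intervalIntegral.integral_add_adjacent_intervals (f_int 0 a) (f_int a b)]
  · refine Eventually.of_forall fun t _ => ?_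
    rw [eqn t]
    ring
  · have hx0 : x 0 = 0 := by unfold x; simp
    intro R
    obtain ⟨n, hn⟩ := exists_nat_gt (R / T)
    refine ⟨(n : ℝ) * T, ?_, ?_⟩
    · rw [div_lt_iff₀ T_pos] at hn
      exact hn.le
    · have := x_int 0 n
      rw [zero_add, hx0, mul_zero] at this
      exact_mod_cast this
  · intro htend
    have hseq : Tendsto (fun n : ℕ => be + ((2 * n : ℕ) : ℝ) * T) atTop atTop := by
      refine tendsto_atTop_add_const_left _ _ ?_
      refine Tendsto.atTop_mul_const T_pos ?_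
      refine tendsto_natCast_atTop_atTop.comp ?_
      exact tendsto_id.const_mul_atTop' (by norm_num : (0 : ℕ) < 2)
    have h1 := htend.comp hseq
    have h2 : (x ∘ fun n : ℕ => be + ((2 * n : ℕ) : ℝ) * T) = fun _ => (1 : ℝ) := by
      funext n
      have := x_int be ((2 * n : ℕ) : ℤ)
      rw [x2, mul_one, zpow_natCast, pow_mul] at this
      simp only [Function.comp_apply]
      norm_num at this ⊢
      exact this
    rw [h2] at h1
    have := tendsto_nhds_unique h1 tendsto_const_nhds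
    norm_num at this

/-- `κ* ≤ arsinh(√2 - 1) + √(4 - 2√2) + π/2 < 3/2 + π/2 < π`, and the coefficient `p ≡ -1` already
shows it: with some delay `0 ≤ τ(t) ≤ bound` it has an oscillatory solution not tending to `0`. -/
theorem result :
    (∀ κ : ℝ, Admissible κ → κ ≤ bound) ∧
    (∃ τ x : ℝ → ℝ, Measurable τ ∧ (∀ t, 0 ≤ τ t ∧ τ t ≤ bound) ∧
      IsSolution 0 (fun _ => -1) τ x ∧ Oscillatory x ∧ ¬ Tendsto x atTop (𝓝 0)) ∧
    bound < 3 / 2 + Real.pi / 2 ∧ 3 / 2 + Real.pi / 2 < Real.pi := by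
  refine ⟨?_, witness, ?_, by have := Real.pi_gt_three; linarith⟩
  · intro κ hκ
    by_contra hlt
    push Not at hlt
    obtain ⟨τ, x, hm, hb, hs, ho, hn⟩ := witness
    have hm' : tauM 0 τ ≤ bound := by
      unfold tauM essSup
      have : NeBot (ae (volume.restrict (Ici (0 : ℝ)))) := by
        rw [ae_neBot]
        intro h
        have h2 := congrArg (fun μ => μ univ) h
        simp at h2
      exact limsup_le_of_le (isCoboundedUnder_le_of_le _ (fun t => (hb t).1))
        (Eventually.of_forall fun t => (hb t).2)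
    exact hn (hκ.2 0 (fun _ => -1) τ measurable_const hm (fun _ => ⟨le_rfl, by norm_num⟩)
      (fun t => (hb t).1) ⟨bound, Eventually.of_forall fun t => (hb t).2⟩
      (lt_of_le_of_lt hm' hlt) x hs ho)
  · have h1 : Real.arsinh (√2 - 1) ≤ √2 - 1 := by
      have h := X112.DE.al_pos.le
      have h2 := (Real.self_le_sinh_iff).2 h
      rw [X112.DE.sinh_al] at h2
      exact h2
    have hsq := X112.DE.sq2
    have hlt : √2 < 1.4166 := by
      rw [Real.sqrt_lt' (by norm_num)]; norm_num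
    have h3 : √(4 - 2 * √2) < 5 / 2 - √2 := by
      rw [Real.sqrt_lt' (by linarith)]
      nlinarith
    unfold bound
    linarith

end Pool.Agent.Results.MP_8b22d5_an.DelayUpperBound
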